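import Pool.Agent.Lib.MP_28303a_al.WR.H21.Form

/-! # INDB: block sums and renaming of indices -/

set_option autoImplicit false
set_option linter.unusedSectionVars false

namespace Pool.Agent.NegK.WR.H21

universe u

open Matrix H16

section

variable {A : Type u} [Ring A]

theorem degGe_blocks {ι κ : Type} {m : ℕ} {α : Matrix ι ι (LaurentPolynomial A)}
    {β : Matrix κ κ (LaurentPolynomial A)} (hα : DegGe m α) (hβ : DegGe m β) :
    DegGe m (fromBlocks α 0 0 β) := by
  rintro (i | i) (j | j) c hc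
  · exact hα i j c hc
  · rfl
  · rfl
  · exact hβ i j c hc

/-- The bijection of the indices. -/
def sg (ι κ : Type) (n : ℕ) : (ι × Fin n) ⊕ (κ × Fin n) ≃ (ι ⊕ κ) × Fin n :=
  (Equiv.sumProdDistrib ι κ (Fin n)).symm

theorem tU_blocks {ι κ : Type} (α : Matrix ι ι (LaurentPolynomial A))
    (β : Matrix κ κ (LaurentPolynomial A)) (m K : ℕ) :
    (tU (fromBlocks α 0 0 β) m K).submatrix (sg ι κ (m + K)) (sg ι κ (m + K)) =
      fromBlocks (tU α m K) 0 0 (tU β m K) := by
  ext1 x y
  rcases x with x | x <;> rcases y with y | y <;> rfl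

theorem tV_blocks {ι κ : Type} (α : Matrix ι ι (LaurentPolynomial A))
    (β : Matrix κ κ (LaurentPolynomial A)) (m K : ℕ) :
    (tV (fromBlocks α 0 0 β) m K).submatrix (sg ι κ (m + K)) (sg ι κ (m + K)) =
      fromBlocks (tV α m K) 0 0 (tV β m K) := by
  ext1 x y
  rcases x with x | x <;> rcases y with y | y <;> rfl

end

theorem indb (hG : GeqStatement.{u}) (hC : CokStatement.{u}) (hI : IndaStatement.{u}) :
    IndbStatement.{u} := by
  intro A _ ι κ _ _ _ _
  refine ⟨fun α β hα hβ => ?_, fun σ α hα => ?_⟩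
  · obtain ⟨α', e1, e2⟩ := exists_inv hα
    obtain ⟨β', e3, e4⟩ := exists_inv hβ
    obtain ⟨m₁, hm₁⟩ := exists_degGe α
    obtain ⟨m₂, hm₂⟩ := exists_degGe β
    obtain ⟨K₁, hK₁⟩ := exists_degGe α'
    obtain ⟨K₂, hK₂⟩ := exists_degGe β'
    set m := max m₁ m₂
    set K := max K₁ K₂
    have g1 : DegGe m α := DegGe.mono (le_max_left _ _) hm₁
    have g2 : DegGe m β := DegGe.mono (le_max_right _ _) hm₂
    have g3 : DegGe K α' := DegGe.mono (le_max_left _ _) hK₁
    have g4 : DegGe K β' := DegGe.mono (le_max_right _ _) hK₂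
    obtain ⟨i1, hi1⟩ := ind_form hG hC hI e1 e2 g1 g3
    obtain ⟨i2, hi2⟩ := ind_form hG hC hI e3 e4 g2 g4
    have e5 : fromBlocks α 0 0 β * fromBlocks α' 0 0 β' = 1 := by
      rw [Matrix.fromBlocks_multiply, ← Matrix.fromBlocks_one]
      simp [e1, e3]
    have e6 : fromBlocks α' 0 0 β' * fromBlocks α 0 0 β = 1 := by
      rw [Matrix.fromBlocks_multiply, ← Matrix.fromBlocks_one]
      simp [e2, e4]
    obtain ⟨i3, hi3⟩ := ind_form hG hC hI e5 e6 (degGe_blocks g1 g2) (degGe_blocks g3 g4)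
    have key : (tU (fromBlocks α 0 0 β) m K * tV (fromBlocks α' 0 0 β') m K).submatrix
        (sg ι κ (m + K)) (sg ι κ (m + K)) =
        fromBlocks (tU α m K * tV α' m K) 0 0 (tU β m K * tV β' m K) := by
      rw [← Matrix.submatrix_mul_equiv _ _ _ (sg ι κ (m + K)) _, tU_blocks, tV_blocks,
        Matrix.fromBlocks_multiply]
      simp
    have hm : mcls (tU (fromBlocks α 0 0 β) m K * tV (fromBlocks α' 0 0 β') m K) i3 =
        mcls (tU α m K * tV α' m K) i1 + mcls (tU β m K * tV β' m K) i2 := by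
      rw [← mcls_blocks i1 i2, ← mcls_submatrix (sg ι κ (m + K)) i3 (idem_submatrix _ i3)]
      exact mcls_congr _ key
    rw [hi1, hi2, hi3, hm, mcls_one_blocks, smul_add]
    abel
  · obtain ⟨α', e1, e2⟩ := exists_inv hα
    obtain ⟨m, hm⟩ := exists_degGe α
    obtain ⟨K, hK⟩ := exists_degGe α'
    have e3 : α.submatrix σ σ * α'.submatrix σ σ = 1 := by
      rw [Matrix.submatrix_mul_equiv, e1, Matrix.submatrix_one_equiv]
    have e4 : α'.submatrix σ σ * α.submatrix σ σ = 1 := by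
      rw [Matrix.submatrix_mul_equiv, e2, Matrix.submatrix_one_equiv]
    obtain ⟨i1, hi1⟩ := ind_form hG hC hI e1 e2 hm hK
    obtain ⟨i2, hi2⟩ := ind_form hG hC hI (m := m) (K := K) e3 e4
      (fun i j c hc => hm _ _ c hc) (fun i j c hc => hK _ _ c hc)
    let τ : κ × Fin (m + K) ≃ ι × Fin (m + K) := σ.prodCongr (Equiv.refl _)
    have key : tU (α.submatrix σ σ) m K * tV (α'.submatrix σ σ) m K =
        (tU α m K * tV α' m K).submatrix τ τ := by
      rw [← Matrix.submatrix_mul_equiv _ _ _ τ _]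
      rfl
    rw [hi1, hi2, mcls_one_equiv σ, mcls_congr i2 key, mcls_submatrix τ i1]

end Pool.Agent.NegK.WR.H21
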