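import Pool.Agent.Lib.MP_28303a_al.WR.H21.Form

/-! # INDN: naturality, and the value on `1 - p + p t` -/

set_option autoImplicit false
set_option linter.unusedSectionVars false

namespace Pool.Agent.NegK.WR.H21

universe u

open Matrix H16

section

variable {A B : Type u} [Ring A] [Ring B]

theorem coeff_lmap (f : A →+* B) (x : LaurentPolynomial A) (c : ℤ) :
    (lmap f x).coeff c = f (x.coeff c) := AddMonoidAlgebra.coeff_mapRingHom f x c

theorem degGe_map (f : A →+* B) {ι : Type} {m : ℕ} {α : Matrix ι ι (LaurentPolynomial A)}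
    (hα : DegGe m α) : DegGe m (α.map (lmap f)) := by
  intro i j c hc
  show (lmap f (α i j)).coeff c = 0
  rw [coeff_lmap, hα i j c hc, map_zero]

theorem tU_map (f : A →+* B) {ι : Type} (α : Matrix ι ι (LaurentPolynomial A)) (m K : ℕ) :
    tU (α.map (lmap f)) m K = (tU α m K).map f := by
  ext1 x y
  exact coeff_lmap f _ _

theorem tV_map (f : A →+* B) {ι : Type} (α : Matrix ι ι (LaurentPolynomial A)) (m K : ℕ) :
    tV (α.map (lmap f)) m K = (tV α m K).map f := by
  ext1 x y
  exact coeff_lmap f _ _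

/-- `p t^n`. -/
noncomputable def pt {ι : Type} (p : Matrix ι ι A) (n : ℤ) : Matrix ι ι (LaurentPolynomial A) :=
  p.map fun a => LaurentPolynomial.C a * LaurentPolynomial.T n

theorem CT (a : A) (n : ℤ) : (LaurentPolynomial.C a * LaurentPolynomial.T n : LaurentPolynomial A) =
    AddMonoidAlgebra.single n a := (LaurentPolynomial.single_eq_C_mul_T a n).symm

theorem pt_apply {ι : Type} (p : Matrix ι ι A) (n : ℤ) (i j : ι) :
    pt p n i j = AddMonoidAlgebra.single n (p i j) := CT _ _

theorem pt_mul {ι : Type} [Fintype ι] (p q : Matrix ι ι A) (m n : ℤ) :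
    pt p m * pt q n = pt (p * q) (m + n) := by
  ext1 i j
  rw [Matrix.mul_apply, pt_apply, Matrix.mul_apply]
  simp only [pt_apply, AddMonoidAlgebra.single_mul_single]
  have : ∀ (s : Finset ι) (g : ι → A), ∑ x ∈ s, AddMonoidAlgebra.single (m + n) (g x) =
      (AddMonoidAlgebra.single (m + n) (∑ x ∈ s, g x) : LaurentPolynomial A) := by
    intro s g
    classical
    induction s using Finset.induction_on with
    | empty => simp
    | insert a s ha ih => rw [Finset.sum_insert ha, Finset.sum_insert ha, ih,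
        AddMonoidAlgebra.single_add]
  exact this _ _

theorem pt_zero {ι : Type} (p : Matrix ι ι A) : pt p 0 = p.map LaurentPolynomial.C := by
  ext1 i j
  show LaurentPolynomial.C (p i j) * LaurentPolynomial.T 0 = LaurentPolynomial.C (p i j)
  rw [LaurentPolynomial.T_zero, mul_one]

theorem coeff_pt {ι : Type} (p : Matrix ι ι A) (n c : ℤ) (i j : ι) :
    (pt p n i j).coeff c = if n = c then p i j else 0 := by
  classical
  rw [pt_apply, AddMonoidAlgebra.coeff_single, Finsupp.single_apply]

/-- `1 - p + p t^n`. -/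
noncomputable def mt {ι : Type} [DecidableEq ι] (p : Matrix ι ι A) (n : ℤ) :
    Matrix ι ι (LaurentPolynomial A) := 1 - pt p 0 + pt p n

theorem mt_mul {ι : Type} [Fintype ι] [DecidableEq ι] {p : Matrix ι ι A} (hp : p * p = p)
    (n : ℤ) : mt p n * mt p (-n) = 1 := by
  unfold mt
  simp only [add_mul, mul_add, sub_mul, mul_sub, one_mul, mul_one, pt_mul, hp, add_neg_cancel,
    zero_add, add_zero]
  abel

theorem coeff_one_ne {ι : Type} [DecidableEq ι] {c : ℤ} (hc : c ≠ 0) (i j : ι) :
    ((1 : Matrix ι ι (LaurentPolynomial A)) i j).coeff c = 0 := by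
  classical
  by_cases hij : i = j
  · subst hij
    rw [Matrix.one_apply_eq, AddMonoidAlgebra.one_def, AddMonoidAlgebra.coeff_single,
      Finsupp.single_apply, if_neg (Ne.symm hc)]
  · rw [Matrix.one_apply_ne hij]
    rfl

theorem coeff_mt {ι : Type} [DecidableEq ι] (p : Matrix ι ι A) (n : ℤ) {c : ℤ} (hc : c ≠ 0)
    (i j : ι) : (mt p n i j).coeff c = if n = c then p i j else 0 := by
  unfold mt
  rw [Matrix.add_apply, Matrix.sub_apply, AddMonoidAlgebra.coeff_add, AddMonoidAlgebra.coeff_sub,
    Finsupp.add_apply, Finsupp.sub_apply, coeff_one_ne hc, coeff_pt, coeff_pt,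
    if_neg (Ne.symm hc), sub_zero, zero_add]

end

theorem indn (hG : GeqStatement.{u}) (hC : CokStatement.{u}) (hI : IndaStatement.{u}) :
    IndnStatement.{u} := by
  refine ⟨?_, ?_⟩
  · intro A B _ _ f ι _ _ α hα
    obtain ⟨β, e1, e2⟩ := exists_inv hα
    obtain ⟨m, hm⟩ := exists_degGe α
    obtain ⟨K, hK⟩ := exists_degGe β
    obtain ⟨i1, hi1⟩ := ind_form hG hC hI e1 e2 hm hK
    have h1 : (1 : Matrix ι ι (LaurentPolynomial A)).map (lmap f) = 1 :=
      Matrix.map_one _ (map_zero _) (map_one _)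
    have e3 : α.map (lmap f) * β.map (lmap f) = 1 := by rw [← Matrix.map_mul, e1, h1]
    have e4 : β.map (lmap f) * α.map (lmap f) = 1 := by rw [← Matrix.map_mul, e2, h1]
    obtain ⟨i2, hi2⟩ := ind_form hG hC hI e3 e4 (degGe_map f hm) (degGe_map f hK)
    have key : tU (α.map (lmap f)) m K * tV (β.map (lmap f)) m K =
        (tU α m K * tV β m K).map f := by
      rw [tU_map, tV_map, Matrix.map_mul]
    have hone : (1 : Matrix ι ι A).map f = 1 := Matrix.map_one _ (map_zero _) (map_one _)
    rw [hi1, hi2, map_sub, map_nsmul, mcls_map, mcls_map, mcls_congr i2 key]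
    congr 2
    exact (mcls_congr _ hone).symm
  · intro A _ ι _ _ p hp
    have hform : (1 - p.map LaurentPolynomial.C +
        p.map (fun a => LaurentPolynomial.C a * LaurentPolynomial.T 1) :
          Matrix ι ι (LaurentPolynomial A)) = mt p 1 := by
      unfold mt
      rw [pt_zero]
      rfl
    have e1 : mt p 1 * mt p (-1) = 1 := mt_mul hp 1
    have e2 : mt p (-1) * mt p 1 = 1 := by
      have := mt_mul hp (-1)
      rwa [neg_neg] at this
    rw [hform]
    refine ⟨isUnit_of_mul e1 e2, ?_⟩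
    have g1 : DegGe 0 (mt p 1) := by
      intro i j c hc
      rw [coeff_mt p 1 (by omega), if_neg (by omega)]
    have g2 : DegGe 1 (mt p (-1)) := by
      intro i j c hc
      rw [coeff_mt p (-1) (by omega), if_neg (by omega)]
    obtain ⟨i1, hi1⟩ := ind_form hG hC hI e1 e2 g1 g2
    rw [hi1, zero_smul, sub_zero]
    let un : Unique (Fin (0 + 1)) := inferInstanceAs (Unique (Fin 1))
    let τ : ι × Fin (0 + 1) ≃ ι := Equiv.prodUnique ι (Fin (0 + 1))
    have hU : tU (mt p 1) 0 1 = p.submatrix τ τ := by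
      ext1 x y
      have hx : (x.2 : ℕ) = 0 := by omega
      have hy : (y.2 : ℕ) = 0 := by omega
      show (mt p 1 x.1 y.1).coeff (((1 : ℕ) : ℤ) + (y.2 : ℕ) - (x.2 : ℕ)) = p x.1 y.1
      rw [hx, hy, coeff_mt p 1 (by norm_num), if_pos (by norm_num)]
    have hV : tV (mt p (-1)) 0 1 = p.submatrix τ τ := by
      ext1 x y
      have hx : (x.2 : ℕ) = 0 := by omega
      have hy : (y.2 : ℕ) = 0 := by omega
      show (mt p (-1) x.1 y.1).coeff ((y.2 : ℕ) - ((1 : ℕ) : ℤ) - (x.2 : ℕ)) = p x.1 y.1
      rw [hx, hy, coeff_mt p (-1) (by norm_num), if_pos (by norm_num)]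
    have key : tU (mt p 1) 0 1 * tV (mt p (-1)) 0 1 = p.submatrix τ τ := by
      rw [hU, hV, Matrix.submatrix_mul_equiv, hp]
    rw [mcls_congr i1 key]
    exact mcls_submatrix τ hp _

end Pool.Agent.NegK.WR.H21
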