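import Pool.Agent.Lib.MP_28303a_al.WR.H16.Inda

/-! # The boundary in terms of idempotents -/

set_option autoImplicit false
set_option linter.unusedSectionVars false

namespace Pool.Agent.NegK.WR.H21

universe u

open Matrix H16

section

variable {A : Type u} [Ring A]

/-- Renaming the indices of an idempotent matrix. -/
theorem mcls_submatrix {ι κ : Type} [Fintype ι] [DecidableEq ι] [Fintype κ] [DecidableEq κ]
    (σ : κ ≃ ι) {e : Matrix ι ι A} (he : e * e = e)
    (h : e.submatrix σ σ * e.submatrix σ σ = e.submatrix σ σ) :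
    mcls (e.submatrix σ σ) h = mcls e he := by
  refine mcls_eq h he (e.submatrix σ id) (e.submatrix id σ) ?_ ?_
  · have := Matrix.submatrix_mul_equiv e e σ (Equiv.refl _) σ
    show e.submatrix σ (Equiv.refl _) * e.submatrix (Equiv.refl _) σ = _
    rw [this, he]
  · rw [Matrix.submatrix_mul_equiv, he]
    rfl

theorem idem_submatrix {ι κ : Type} [Fintype ι] [Fintype κ]
    (σ : κ ≃ ι) {e : Matrix ι ι A} (he : e * e = e) :
    e.submatrix σ σ * e.submatrix σ σ = e.submatrix σ σ := by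
  rw [Matrix.submatrix_mul_equiv, he]

theorem mcls_one_blocks (ι κ : Type) [Fintype ι] [DecidableEq ι] [Fintype κ] [DecidableEq κ] :
    mcls (1 : Matrix (ι ⊕ κ) (ι ⊕ κ) A) (one_mul 1) =
      mcls (1 : Matrix ι ι A) (one_mul 1) + mcls (1 : Matrix κ κ A) (one_mul 1) := by
  rw [← mcls_blocks (one_mul 1) (one_mul 1)]
  exact mcls_congr _ Matrix.fromBlocks_one.symm

theorem mcls_one_equiv {ι κ : Type} [Fintype ι] [DecidableEq ι] [Fintype κ] [DecidableEq κ]
    (σ : κ ≃ ι) :
    mcls (1 : Matrix κ κ A) (one_mul 1) = mcls (1 : Matrix ι ι A) (one_mul 1) := by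
  rw [← mcls_submatrix σ (one_mul (1 : Matrix ι ι A)) (idem_submatrix σ (one_mul 1))]
  exact mcls_congr _ (Matrix.submatrix_one_equiv σ).symm

theorem DegGe.mono {ι κ : Type} {m n : ℕ} (h : m ≤ n) {α : Matrix ι κ (LaurentPolynomial A)}
    (hα : DegGe m α) : DegGe n α := fun i j c hc => hα i j c (by omega)

theorem exists_inv {M : Type*} [Monoid M] {a : M} (h : IsUnit a) : ∃ b, a * b = 1 ∧ b * a = 1 := by
  obtain ⟨u, rfl⟩ := h
  exact ⟨((u⁻¹ : Mˣ) : M), u.mul_inv, u.inv_mul⟩

/-- The boundary in terms of the explicit idempotent. -/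
theorem ind_form (hG : GeqStatement.{u}) (hC : CokStatement.{u}) (hI : IndaStatement.{u})
    {ι : Type} [Fintype ι] [DecidableEq ι] {α β : Matrix ι ι (LaurentPolynomial A)} {m K : ℕ}
    (h1 : α * β = 1) (h2 : β * α = 1) (hα : DegGe m α) (hβ : DegGe K β) :
    ∃ h : (tU α m K * tV β m K) * (tU α m K * tV β m K) = tU α m K * tV β m K,
      ind α = mcls (tU α m K * tV β m K) h - m • mcls (1 : Matrix ι ι A) (one_mul 1) := by
  obtain ⟨h, hh⟩ := hC A ι α β m K h1 h2 hα hβ
  refine ⟨h, ?_⟩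
  rw [(hI A ι).1 α m (isUnit_of_mul h1 h2) hα, hh]
  congr 1
  have h3 := (hG A ι).2.2 (-(m : ℤ)) m
  rwa [neg_add_cancel] at h3

end

end Pool.Agent.NegK.WR.H21
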